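import Pool.Agent.H19.SYA.TB

/-!
sya_modules, row PCG: changing the pair.
-/

set_option autoImplicit false

namespace Pool.Agent.H86.SYA.PCG

open MvPolynomial Pool.Agent.H2.ST Pool.Agent.H15.TG Pool.Agent.H19.SYA

/-- substitution in a polynomial expression -/
lemma subst {k A : Type} [Field k] [CommRing A] [Algebra k A] (a b : Fin 4 → A)
    (g : Fin 4 → MvPolynomial (Fin 4) k) (h : ∀ i, aeval b (g i) = a i)
    (P : MvPolynomial (Fin 4) k) : aeval b (aeval g P) = aeval a P := by
  have h1 : (aeval b).comp (aeval g) = (aeval a : MvPolynomial (Fin 4) k →ₐ[k] A) := by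
    apply MvPolynomial.algHom_ext
    intro i
    rw [AlgHom.comp_apply, aeval_X, aeval_X, h]
  exact DFunLike.congr_fun h1 P

/-- division by a homogeneous element -/
lemma div_mem {k A : Type} [Field k] [CommRing A] [IsDomain A] [Algebra k A] {W : ℤ → Submodule k A}
    (h : Gr W) {a b : ℤ} {f g : A} (hg : g ∈ W b) (hg0 : g ≠ 0) (hfg : f * g ∈ W (a + b)) :
    f ∈ W a := by
  refine mem_of_cmp h fun c hc => ?_
  have h1 := cmp_mul_of_mem h hg f c
  rw [cmp_of_mem h hfg, Finsupp.single_eq_of_ne (by omega)] at h1
  rcases mul_eq_zero.mp h1.symm with h2 | h2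
  · exact h2
  · exact absurd h2 hg0

theorem pf_PCG (hPSN : T_PSN) : Pool.Agent.H19.SYA.T_PCG := by
  intro k _ _ _ W H y w p q S α β k1 hHy hP
  obtain ⟨hLN, hNC, hpos⟩ := hPSN k W H y w p q S α β k1 hHy hP
  have hGr : Gr W := hHy.toGr
  have hqp : br q p = 0 := by rw [br_anti, hP.gf, neg_zero]
  refine ⟨fun hpS => ?_, fun S' c j hk hS hc => ?_⟩
  · have hge : ∀ F : Pol k 2, ∃ (N : ℕ) (P : MvPolynomial (Fin 4) k),
        p ^ N * F = aeval ![p, S, H, -q] P := by
      intro F
      obtain ⟨N, P, h⟩ := hP.ge1 F
      refine ⟨N, aeval ![X 0, -X 3, X 2, X 1] P, ?_⟩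
      rw [h]
      refine (subst _ _ _ (fun i => ?_) P).symm
      fin_cases i <;> simp
    have hS' : S ∈ W (k1 * α - β) := by
      have := hP.hS
      have e : ((k1 : ℤ) * α + ((0 : ℕ) : ℤ) * β - β) = k1 * α - β := by push_cast; ring
      rwa [e] at this
    have hq' : -q ∈ W ((k1 : ℤ) * α + ((0 : ℕ) : ℤ) * (k1 * α - β) - (k1 * α - β)) := by
      have e : ((k1 : ℤ) * α + ((0 : ℕ) : ℤ) * (k1 * α - β) - (k1 * α - β)) = β := by
        push_cast; ring
      rw [e]
      exact (W β).neg_mem hP.hf
    have hcop : IsCoprime α ((k1 : ℤ) * α - β) := by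
      obtain ⟨a, b, hab⟩ := hP.cop
      exact ⟨a + b * k1, -b, by linear_combination hab⟩
    exact
      { pg := hP.pg
        hg := hP.hg
        hf := hS'
        pa := hP.pa
        pb := hpos
        lg := hP.lg
        lf := hLN
        gf := hP.pS
        nd := hpS
        hS := hq'
        pS := by rw [br_neg, hP.gf, neg_zero]
        qS := by
          rw [br_neg, br_anti, neg_neg, hP.qS, pow_zero, pow_zero]
        gen := by
          intro F
          obtain ⟨N, P, h⟩ := hge F
          refine ⟨N, (X 1) ^ N * P, ?_⟩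
          rw [mul_pow, mul_comm (p ^ N), mul_assoc, h, map_mul, map_pow, aeval_X]
          simp
        cop := hcop
        ge1 := hge }
  · have hp0 : p ≠ 0 := hP.pg.ne_zero
    have hpS' : p * S' = S - C c * q ^ j := by rw [hS]; ring
    have hk' : ((k1 - 1 : ℕ) : ℤ) = (k1 : ℤ) - 1 := by omega
    have hgen' : ∀ P : MvPolynomial (Fin 4) k, ∃ P' : MvPolynomial (Fin 4) k,
        aeval ![p, q, H, S] P = aeval ![p, q, H, S'] P' := by
      intro P
      refine ⟨aeval ![X 0, X 1, X 2, X 0 * X 3 + C c * X 1 ^ j] P, ?_⟩
      refine (subst _ _ _ (fun i => ?_) P).symm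
      fin_cases i
      · simp
      · simp
      · simp
      · simp [hS, algebraMap_eq]
    exact
      { pg := hP.pg
        hg := hP.hg
        hf := hP.hf
        pa := hP.pa
        pb := hP.pb
        lg := hP.lg
        lf := hP.lf
        gf := hP.gf
        nd := hP.nd
        hS := by
          refine div_mem hGr hP.hg hp0 ?_
          have e : (((k1 - 1 : ℕ) : ℤ) * α + ((0 : ℕ) : ℤ) * β - β) + α = k1 * α - β := by
            rw [hk']; push_cast; ring
          rw [e, mul_comm S' p, hpS']
          have e2 : ((k1 : ℤ) * α + ((0 : ℕ) : ℤ) * β - β) = k1 * α - β := by push_cast; ring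
          have hS0 := hP.hS
          rw [e2] at hS0
          refine (W _).sub_mem hS0 ?_
          rcases hc with rfl | hc
          · rw [C_0, zero_mul]; exact (W _).zero_mem
          · have h1 := pow_mem_gr hGr hP.hf j
            rw [nsmul_eq_mul, hc] at h1
            rw [← algebraMap_eq, ← Algebra.smul_def]
            exact (W _).smul_mem c h1
        pS := by
          have h1 : p * br p S' = 0 := by
            have h2 : br p (p * S') = p * br p S' := by rw [br_mul, br_self, mul_zero, add_zero]
            rw [← h2, hpS', br_sub, hP.pS, br_mul, br_C, br_pow, hP.gf]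
            ring
          exact (mul_eq_zero.mp h1).resolve_left hp0
        qS := by
          have h1 : p * br q S' = p * (p ^ (k1 - 1) * q ^ 0) := by
            have h2 : br q (p * S') = p * br q S' := by rw [br_mul, hqp, mul_zero, add_zero]
            have h3 : p ^ k1 = p * p ^ (k1 - 1) := by
              conv_lhs => rw [show k1 = (k1 - 1) + 1 by omega, pow_succ']
            rw [← h2, hpS', br_sub, hP.qS, br_mul, br_C, br_pow, br_self, h3]
            ring
          exact mul_left_cancel₀ hp0 h1
        gen := by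
          intro F
          obtain ⟨N, P, h⟩ := hP.gen F
          obtain ⟨P', h'⟩ := hgen' P
          exact ⟨N, P', h.trans h'⟩
        cop := hP.cop
        ge1 := by
          intro F
          obtain ⟨N, P, h⟩ := hP.ge1 F
          obtain ⟨P', h'⟩ := hgen' P
          exact ⟨N, P', h.trans h'⟩ }

end Pool.Agent.H86.SYA.PCG
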